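import Pool.Agent.J4H64.TB.Ra

/-!
# Project TB (helper12, MP_877ce7_an), job CNT: counting label changes by total variation
-/

set_option autoImplicit false

namespace Pool.Agent.J4H64.TB

open Pool.Agent.J4H12.TB Filter Topology Set

/-- the times of a chain are increasing -/
theorem tau_mono {q : Fin 3 → ℝ → ℂ} {n : ℕ} {τ : ℕ → ℝ} {lab : ℕ → Fin 3} (h : Alt q n τ lab) :
    ∀ j, j ≤ n → ∀ i, i ≤ j → τ i ≤ τ j := by
  intro j
  induction j with
  | zero =>
    intro _ i hi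
    rw [Nat.le_zero.1 hi]
  | succ j ih =>
    intro hj i hi
    rcases Nat.lt_or_ge i (j + 1) with h1 | h1
    · exact (ih (by omega) i (by omega)).trans (h.1 j (by omega)).le
    · rw [le_antisymm hi h1]

theorem t_CNT : S_CNT := by
  intro m a μ ν M C L κ c E q v r w X Y F G P hP n τ lab hA hD Ψ Θ hΨ hΘ
  have hmem : ∀ i, i ≤ n → τ i ∈ Icc (τ 0) (τ n) := fun i hi =>
    ⟨tau_mono hA i hi 0 (Nat.zero_le _), tau_mono hA n le_rfl i hi⟩
  have hX1 : ∀ i, i ≤ n → ‖X (τ i) / (‖X (τ i)‖ : ℂ)‖ = 1 := by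
    intro i hi
    have h1 := hD _ (hmem i hi)
    have h2 := hP.Xlo _ h1
    have h3 : 0 < D q a (τ i) := by
      rw [← hP.hr]
      exact norm_pos_iff.2 (hP.two.r0 _)
    have h4 : 0 < rho m q (τ i) := by
      by_contra hc
      have := mul_nonpos_of_nonneg_of_nonpos hP.κ0.le (not_lt.1 hc)
      linarith
    have h5 : 0 < ‖X (τ i)‖ := lt_of_lt_of_le (mul_pos hP.c0 h4) h2
    rw [norm_div, Complex.norm_real, norm_norm, div_self h5.ne']
  -- the sign of an eclipse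
  have hlab : ∀ i, i ≤ n → lab i ≠ a := by
    intro i hi h
    exact hP.ecl0 _ (hD _ (hmem i hi)) (h ▸ hA.2.1 i hi)
  have hstep : ∀ i, i < n → 2 ≤ (Ψ (τ (i + 1)) - Ψ (τ i)) + (Θ (τ (i + 1)) - Θ (τ i)) := by
    intro i hi
    have h1 := hΨ (τ i) (τ (i + 1)) (hmem i hi.le).1 (hA.1 i hi).le (hmem (i + 1) hi).2
    have h2 := hΘ (τ i) (τ (i + 1)) (hmem i hi.le).1 (hA.1 i hi).le (hmem (i + 1) hi).2
    have h3 := hX1 i hi.le
    obtain ⟨x, hx⟩ : ∃ x, x = X (τ i) / (‖X (τ i)‖ : ℂ) := ⟨_, rfl⟩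
    obtain ⟨y, hy⟩ : ∃ y, y = X (τ (i + 1)) / (‖X (τ (i + 1))‖ : ℂ) := ⟨_, rfl⟩
    rw [← hx] at h3
    rw [← hx, ← hy] at h2
    have key : ∀ z z' : ℂ, (z = x ∧ z' = -y) ∨ (z = -x ∧ z' = y) → 2 ≤ ‖z' - z‖ + ‖y - x‖ := by
      intro z z' h
      have h4 : (2 : ℝ) = ‖(2 : ℂ) * x‖ := by
        rw [norm_mul, h3]
        simp
      rw [h4]
      rcases h with ⟨rfl, rfl⟩ | ⟨rfl, rfl⟩
      · have h5 : (2 : ℂ) * z = -((-y - z) + (y - z)) := by ring
        rw [h5, norm_neg]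
        exact norm_add_le _ _
      · have h5 : (2 : ℂ) * x = (z' - -x) - (z' - x) := by ring
        rw [h5]
        exact norm_sub_le _ _
    have h4 : 2 ≤ ‖r (τ (i + 1)) / (‖r (τ (i + 1))‖ : ℂ) - r (τ i) / (‖r (τ i)‖ : ℂ)‖ +
        ‖y - x‖ := by
      apply key
      have e1 := hA.2.1 i hi.le
      have e2 := hA.2.1 (i + 1) hi
      rcases cases3 a (lab i) with h5 | h5 | h5
      · exact absurd h5 (hlab i hi.le)
      · right
        rcases cases3 a (lab (i + 1)) with h6 | h6 | h6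
        · exact absurd h6 (hlab (i + 1) hi)
        · exact absurd (h5.trans h6.symm) (hA.2.2 i hi)
        · rw [hx, hy]
          exact ⟨hP.ecl1 _ (h5 ▸ e1), hP.ecl2 _ (h6 ▸ e2)⟩
      · left
        rcases cases3 a (lab (i + 1)) with h6 | h6 | h6
        · exact absurd h6 (hlab (i + 1) hi)
        · rw [hx, hy]
          exact ⟨hP.ecl2 _ (h5 ▸ e1), hP.ecl1 _ (h6 ▸ e2)⟩
        · exact absurd (h5.trans h6.symm) (hA.2.2 i hi)
    linarith
  have hall : ∀ i, i ≤ n → 2 * (i : ℝ) ≤ (Ψ (τ i) - Ψ (τ 0)) + (Θ (τ i) - Θ (τ 0)) := by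
    intro i
    induction i with
    | zero => intro _; simp
    | succ i ih =>
      intro hi
      have h1 := ih (by omega)
      have h2 := hstep i (by omega)
      push_cast
      linarith
  exact hall n le_rfl

end Pool.Agent.J4H64.TB
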