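import Pool.Agent.J4H64.TB.Cnt

/-!
# Project TB (helper12, MP_877ce7_an), jobs GRP, NEAR, FAR
-/

set_option autoImplicit false

namespace Pool.Agent.J4H64.TB

open Pool.Agent.J4H12.TB Filter Topology Set

theorem t_GRP : S_GRP := by
  intro n K V c T G hc hmono hT hG hrun
  have key : ∀ j, j ≤ n → ∃ b r : ℕ, j ≤ b * (K + 1) + r ∧ r ≤ j ∧
      (∀ k, j - r ≤ k → k < j → G k) ∧ c * b ≤ V j - V 0 := by
    intro j
    induction j with
    | zero => exact fun _ => ⟨0, 0, by simp, le_rfl, fun k _ hk => absurd hk (Nat.not_lt_zero _), by simp⟩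
    | succ j ih =>
      intro hj
      obtain ⟨b, r, h1, h2, h3, h4⟩ := ih (by omega)
      by_cases hGj : G j
      · refine ⟨b, r + 1, by omega, by omega, ?_, ?_⟩
        · intro k hk1 hk2
          rcases Nat.lt_or_ge k j with h5 | h5
          · exact h3 k (by omega) h5
          · rw [le_antisymm (by omega : k ≤ j) h5]
            exact hGj
        · have := hmono j (by omega)
          linarith
      · have h5 := (hG j (by omega)).resolve_left hGj
        have h6 := hrun (j - r) j (Nat.sub_le _ _) (by omega) h3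
        refine ⟨b + 1, 0, ?_, Nat.zero_le _, fun k hk1 hk2 => by omega, ?_⟩
        · have : r ≤ K := by omega
          calc j + 1 ≤ b * (K + 1) + r + 1 := by omega
            _ ≤ (b + 1) * (K + 1) + 0 := by
              rw [add_mul]
              omega
        · push_cast
          linarith
  obtain ⟨b, r, h1, h2, h3, h4⟩ := key n le_rfl
  have h5 := hrun (n - r) n (Nat.sub_le _ _) le_rfl h3
  have h6 : r ≤ K := by omega
  have h7 : (n : ℝ) ≤ b * (K + 1) + r := by exact_mod_cast h1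
  have h8 : (b : ℝ) ≤ T / c := by
    rw [le_div_iff₀ hc]
    linarith
  have h9 : (r : ℝ) ≤ K := by exact_mod_cast h6
  have h10 : (0 : ℝ) ≤ K := Nat.cast_nonneg K
  nlinarith

/-- on a run of intervals on which some pair is close, it is the same pair -/
theorem same_pair {m : Fin 3 → ℝ} {C E δ : ℝ} {q v : Fin 3 → ℝ → ℂ} (hB : Bas m C E q v)
    (hδ : 4 * δ ≤ 1 / C) {τ : ℕ → ℝ} (i j : ℕ) (hij : i < j)
    (hτ : ∀ k, i ≤ k → k < j → τ k ≤ τ (k + 1))
    (h : ∀ k, i ≤ k → k < j → ∃ p, Close m q δ p (τ k) (τ (k + 1))) :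
    ∃ p, Close m q δ p (τ i) (τ j) := by
  obtain ⟨d, rfl⟩ : ∃ d, j = i + d + 1 := ⟨j - i - 1, by omega⟩
  clear hij
  induction d with
  | zero => exact h i le_rfl (by omega)
  | succ d ih =>
    obtain ⟨p, hp⟩ := ih (fun k h1 h2 => hτ k h1 (by omega)) (fun k h1 h2 => h k h1 (by omega))
    obtain ⟨p', hp'⟩ := h (i + d + 1) (by omega) (by omega)
    have hle : ∀ k, i ≤ k → k ≤ i + (d + 1) → τ i ≤ τ k := by
      intro k
      induction k with
      | zero =>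
        intro h1 _
        rw [Nat.le_zero.1 h1]
      | succ k ih2 =>
        intro h1 h2
        rcases Nat.lt_or_ge k i with h3 | h3
        · rw [le_antisymm h1 (by omega : k + 1 ≤ i)]
        · exact (ih2 h3 (by omega)).trans (hτ k h3 (by omega))
    have h1 : τ i ≤ τ (i + d + 1) := hle _ (by omega) (by omega)
    have h2 : τ (i + d + 1) ≤ τ (i + d + 1 + 1) := hτ _ (by omega) (by omega)
    have hr := hB.rpos (τ (i + d + 1))
    have e1 := hp (τ (i + d + 1)) ⟨h1, le_rfl⟩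
    have e2 := hp' (τ (i + d + 1)) ⟨le_rfl, h2⟩
    have e3 : 4 * δ * rho m q (τ (i + d + 1)) ≤ rho m q (τ (i + d + 1)) / C := by
      have := mul_le_mul_of_nonneg_right hδ hr.le
      rwa [one_div, inv_mul_eq_div] at this
    have hpp := hB.one _ _ _ (e1.trans e3) (e2.trans e3)
    refine ⟨p, fun x hx => ?_⟩
    rcases le_total x (τ (i + d + 1)) with h3 | h3
    · exact hp x ⟨hx.1, h3⟩
    · rw [hpp]
      exact hp' x ⟨h3, hx.2⟩

/-- part of a chain -/
theorem alt_sub {q : Fin 3 → ℝ → ℂ} {n : ℕ} {τ : ℕ → ℝ} {lab : ℕ → Fin 3} (h : Alt q n τ lab)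
    {i j : ℕ} (hij : i ≤ j) (hj : j ≤ n) :
    Alt q (j - i) (fun k => τ (i + k)) (fun k => lab (i + k)) :=
  ⟨fun k hk => h.1 (i + k) (by omega), fun k hk => h.2.1 (i + k) (by omega),
    fun k hk => h.2.2 (i + k) (by omega)⟩

theorem near_sub {m : Fin 3 → ℝ} {E : ℝ} {q : Fin 3 → ℝ → ℂ} {s t s' t' : ℝ} (h : Near m E q s t)
    (hs : s ≤ s') (ht : t' ≤ t) : Near m E q s' t' :=
  fun x hx => h x ⟨hs.trans hx.1, hx.2.trans ht⟩

theorem vv_mono {m : Fin 3 → ℝ} {C E : ℝ} (hE : 0 < E) {q v : Fin 3 → ℝ → ℂ}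
    (hB : Bas m C E q v) : Monotone (vv m q v) := by
  apply monotone_of_deriv_nonneg
  · exact fun t => (hB.dvv t).differentiableAt
  · intro t
    rw [(hB.dvv t).deriv]
    have := hB.W0 t
    positivity

theorem vv_sq {m : Fin 3 → ℝ} {C E V : ℝ} {q v : Fin 3 → ℝ → ℂ} (hB : Bas m C E q v)
    (hV : Spd V m E q v) (t : ℝ) : vv m q v t ^ 2 ≤ V * (E * rho m q t + 1) := by
  have hr := hB.rpos t
  have h1 := hV t
  have h2 : vv m q v t ^ 2 = (J m q v t / rho m q t) ^ 2 * rho m q t := by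
    unfold vv
    rw [div_pow, Real.sq_sqrt hr.le, div_pow]
    field_simp
  rw [h2]
  calc (J m q v t / rho m q t) ^ 2 * rho m q t ≤ V * (E + 1 / rho m q t) * rho m q t :=
        mul_le_mul_of_nonneg_right h1 hr.le
    _ = V * (E * rho m q t + 1) := by field_simp

theorem t_NEAR (hB : S_BAS) (hC : S_CSN) (hE : S_EXN) (hG : S_GRP) : S_NEAR := by
  intro m hm V hV
  obtain ⟨C, hC1, hBas⟩ := hB m hm
  obtain ⟨δ₁, hδ₁, h1⟩ := hC m hm V hV
  obtain ⟨δ₂, hδ₂, h2⟩ := hE m hm V hV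
  obtain ⟨δ, hδ⟩ : ∃ δ : ℝ, δ = min (min δ₁ δ₂) (1 / (4 * C)) := ⟨_, rfl⟩
  have hCpos : 0 < C := by linarith
  have hδ0 : 0 < δ := by
    rw [hδ]
    exact lt_min (lt_min hδ₁ hδ₂) (by positivity)
  have hδ1 : δ ≤ δ₁ := hδ ▸ (min_le_left _ _).trans (min_le_left _ _)
  have hδ2 : δ ≤ δ₂ := hδ ▸ (min_le_left _ _).trans (min_le_right _ _)
  have hδ3 : 4 * δ ≤ 1 / C := by
    have : δ ≤ 1 / (4 * C) := hδ ▸ min_le_right _ _
    calc 4 * δ ≤ 4 * (1 / (4 * C)) := by linarith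
      _ = 1 / C := by field_simp
  obtain ⟨c, hc, h1c⟩ := h1 δ hδ0 hδ1
  obtain ⟨K, h2K⟩ := h2 δ hδ0 hδ2
  refine ⟨⌈(2 * √(2 * V) / c + 1) * (K + 1)⌉₊, ?_⟩
  intro E q v hs hu hsp n τ lab hA hN
  have hb := hBas E q v hs
  have hmono := vv_mono hs.Epos hb
  have hτ := tau_mono hA
  have hvv : ∀ i, i ≤ n → |vv m q v (τ i)| ≤ √(2 * V) := by
    intro i hi
    apply Real.abs_le_sqrt
    refine (vv_sq hb hsp (τ i)).trans ?_
    have := hN (τ i) ⟨hτ i hi 0 (Nat.zero_le _), hτ n le_rfl i hi⟩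
    nlinarith
  have h3 : (n : ℝ) ≤ (2 * √(2 * V) / c + 1) * (K + 1) := by
    refine hG n K (fun i => vv m q v (τ i)) c (2 * √(2 * V))
      (fun i => ∃ p, Close m q δ p (τ i) (τ (i + 1))) hc ?_ ?_ ?_ ?_
    · exact fun i hi => hmono (hA.1 i hi).le
    · have e1 := abs_le.1 (hvv n le_rfl)
      have e2 := abs_le.1 (hvv 0 (Nat.zero_le _))
      show vv m q v (τ n) - vv m q v (τ 0) ≤ _
      linarith
    · intro i hi
      exact h1c E q v hs hsp (τ i) (τ (i + 1)) (hA.1 i hi).le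
        (near_sub hN (hτ i hi.le 0 (Nat.zero_le _)) (hτ n le_rfl (i + 1) hi))
        (lab i) (lab (i + 1)) (hA.2.2 i hi) (hA.2.1 i hi.le) (hA.2.1 (i + 1) hi)
    · intro i j hij hj hk
      rcases hij.eq_or_lt with rfl | hlt
      · simp
      · obtain ⟨p, hp⟩ := same_pair hb hδ3 i j hlt
          (fun k _ h2 => (hA.1 k (by omega)).le) hk
        have h4 := h2K E q v hs hu hsp (j - i) (fun k => τ (i + k)) (fun k => lab (i + k))
          (alt_sub hA hij hj)
        have e1 : i + (j - i) = j := by omega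
        simp only [add_zero, e1] at h4
        exact h4 (near_sub hN (hτ i (by omega) 0 (Nat.zero_le _)) (hτ n le_rfl j hj)) p hp
  exact_mod_cast h3.trans (Nat.le_ceil _)

theorem t_FAR (hB : S_BAS) (hC : S_CSF) (hE : S_EXF) (hG : S_GRP) : S_FAR := by
  intro m hm V hV
  obtain ⟨C, hC1, hBas⟩ := hB m hm
  obtain ⟨δ₁, hδ₁, h1⟩ := hC m hm V hV
  obtain ⟨δ₂, hδ₂, h2⟩ := hE m hm V hV
  obtain ⟨δ, hδ⟩ : ∃ δ : ℝ, δ = min (min δ₁ δ₂) (1 / (4 * C)) := ⟨_, rfl⟩
  have hCpos : 0 < C := by linarith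
  have hδ0 : 0 < δ := by
    rw [hδ]
    exact lt_min (lt_min hδ₁ hδ₂) (by positivity)
  have hδ1 : δ ≤ δ₁ := hδ ▸ (min_le_left _ _).trans (min_le_left _ _)
  have hδ2 : δ ≤ δ₂ := hδ ▸ (min_le_left _ _).trans (min_le_right _ _)
  have hδ3 : 4 * δ ≤ 1 / C := by
    have : δ ≤ 1 / (4 * C) := hδ ▸ min_le_right _ _
    calc 4 * δ ≤ 4 * (1 / (4 * C)) := by linarith
      _ = 1 / C := by field_simp
  obtain ⟨c, hc, h1c⟩ := h1 δ hδ0 hδ1
  obtain ⟨K, h2K⟩ := h2 δ hδ0 hδ2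
  refine ⟨⌈(1 / c + 1) * (K + 1)⌉₊, ?_⟩
  intro q v hs hu hsp hJ hr1 n τ lab hA h0
  have hb := hBas 1 q v hs
  have hτ := tau_mono hA
  have hr : 0 < rho m q 0 := by linarith
  have hZ0 : ∀ t, 0 ≤ t → -1 ≤ Zf (rho m q 0) t ∧ Zf (rho m q 0) t ≤ 0 := by
    intro t ht
    have h3 : rho m q 0 / (rho m q 0 + t) ≤ 1 := (div_le_one (by linarith)).2 (by linarith)
    have h4 : √(rho m q 0 / (rho m q 0 + t)) ≤ 1 := Real.sqrt_le_one.2 h3
    have h5 := Real.sqrt_nonneg (rho m q 0 / (rho m q 0 + t))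
    unfold Zf
    constructor <;> linarith
  have hZm : ∀ s t, 0 ≤ s → s ≤ t → Zf (rho m q 0) s ≤ Zf (rho m q 0) t := by
    intro s t hs' hst
    unfold Zf
    apply neg_le_neg
    apply Real.sqrt_le_sqrt
    exact div_le_div_of_nonneg_left hr.le (by linarith) (by linarith)
  have hτ0 : ∀ i, i ≤ n → 0 ≤ τ i := fun i hi => h0.trans (hτ i hi 0 (Nat.zero_le _))
  have h3 : (n : ℝ) ≤ (1 / c + 1) * (K + 1) := by
    refine hG n K (fun i => Zf (rho m q 0) (τ i)) c 1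
      (fun i => ∃ p, Close m q δ p (τ i) (τ (i + 1))) hc ?_ ?_ ?_ ?_
    · exact fun i hi => hZm _ _ (hτ0 i hi.le) (hA.1 i hi).le
    · have e1 := hZ0 _ (hτ0 n le_rfl)
      have e2 := hZ0 _ (hτ0 0 (Nat.zero_le _))
      show Zf (rho m q 0) (τ n) - Zf (rho m q 0) (τ 0) ≤ _
      linarith
    · intro i hi
      exact h1c q v hs hsp hJ hr1 (τ i) (τ (i + 1)) (hτ0 i hi.le) (hA.1 i hi).le
        (lab i) (lab (i + 1)) (hA.2.2 i hi) (hA.2.1 i hi.le) (hA.2.1 (i + 1) hi)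
    · intro i j hij hj hk
      rcases hij.eq_or_lt with rfl | hlt
      · simp
      · obtain ⟨p, hp⟩ := same_pair hb hδ3 i j hlt
          (fun k _ h2 => (hA.1 k (by omega)).le) hk
        have h4 := h2K q v hs hu hsp hJ hr1 (j - i) (fun k => τ (i + k)) (fun k => lab (i + k))
          (alt_sub hA hij hj)
        have e1 : i + (j - i) = j := by omega
        simp only [add_zero, e1] at h4
        exact h4 (hτ0 i (by omega)) p hp
  exact_mod_cast h3.trans (Nat.le_ceil _)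

end Pool.Agent.J4H64.TB
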