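import Pool.Agent.J4H12.TB.Stm

/-!
# Project TB (helper12, MP_877ce7_an), job RA: a right angle between two eclipses
-/

set_option autoImplicit false

namespace Pool.Agent.J4H64.TB

open Pool.Agent.J4H12.TB Filter Topology Set

theorem i11 (a : Fin 3) : a + 1 + 1 = a + 2 := by fin_cases a <;> rfl
theorem i12 (a : Fin 3) : a + 1 + 2 = a := by fin_cases a <;> rfl
theorem i21 (a : Fin 3) : a + 2 + 1 = a := by fin_cases a <;> rfl
theorem i22 (a : Fin 3) : a + 2 + 2 = a + 1 := by fin_cases a <;> rfl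

theorem ne1 (a : Fin 3) : a ≠ a + 1 := by fin_cases a <;> decide
theorem ne2 (a : Fin 3) : a ≠ a + 2 := by fin_cases a <;> decide
theorem ne12 (a : Fin 3) : a + 1 ≠ a + 2 := by fin_cases a <;> decide

theorem cases3 (a b : Fin 3) : b = a ∨ b = a + 1 ∨ b = a + 2 := by
  fin_cases a <;> fin_cases b <;> decide

theorem ecl_iff {q : Fin 3 → ℝ → ℂ} {a : Fin 3} {t : ℝ} (h : Ecl q a t) :
    ∃ α β : ℝ, 0 < α ∧ 0 < β ∧ α + β = 1 ∧
      (q a t).re = α * (q (a + 1) t).re + β * (q (a + 2) t).re ∧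
      (q a t).im = α * (q (a + 1) t).im + β * (q (a + 2) t).im := by
  obtain ⟨α, β, hα, hβ, hs, he⟩ := h
  refine ⟨α, β, hα, hβ, hs, ?_, ?_⟩
  · rw [← he]; simp
  · rw [← he]; simp

theorem chi_cyc (q : Fin 3 → ℝ → ℂ) (a : Fin 3) (t : ℝ) :
    chi q t = cr (q (a + 1) t - q a t) (q (a + 2) t - q a t) := by
  unfold chi cr
  fin_cases a
  · rfl
  · show _ = (q 2 t - q 1 t).re * (q 0 t - q 1 t).im - (q 2 t - q 1 t).im * (q 0 t - q 1 t).re
    simp only [Complex.sub_re, Complex.sub_im]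
    ring
  · show _ = (q 0 t - q 2 t).re * (q 1 t - q 2 t).im - (q 0 t - q 2 t).im * (q 1 t - q 2 t).re
    simp only [Complex.sub_re, Complex.sub_im]
    ring

theorem ecl_chi {q : Fin 3 → ℝ → ℂ} {a : Fin 3} {t : ℝ} (h : Ecl q a t) : chi q t = 0 := by
  obtain ⟨α, β, -, -, hs, h1, h2⟩ := ecl_iff h
  rw [chi_cyc q a t]
  unfold cr
  simp only [Complex.sub_re, Complex.sub_im]
  have hβ : β = 1 - α := by linarith
  rw [h1, h2, hβ]
  ring

theorem nsq_pos {z w : ℂ} (h : z ≠ w) : 0 < (z.re - w.re) ^ 2 + (z.im - w.im) ^ 2 := by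
  by_contra hc
  apply h
  have h1 : (z.re - w.re) ^ 2 = 0 := by nlinarith [sq_nonneg (z.re - w.re), sq_nonneg (z.im - w.im)]
  have h2 : (z.im - w.im) ^ 2 = 0 := by nlinarith [sq_nonneg (z.re - w.re), sq_nonneg (z.im - w.im)]
  apply Complex.ext
  · have := pow_eq_zero_iff (two_ne_zero) |>.1 h1
    linarith
  · have := pow_eq_zero_iff (two_ne_zero) |>.1 h2
    linarith

theorem psi_neg {q : Fin 3 → ℝ → ℂ} {a : Fin 3} {t : ℝ} (hne : q (a + 1) t ≠ q (a + 2) t)
    (h : Ecl q a t) : psi q a t < 0 := by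
  obtain ⟨α, β, hα, hβ', hs, h1, h2⟩ := ecl_iff h
  have h3 := nsq_pos hne
  unfold psi dt
  simp only [Complex.sub_re, Complex.sub_im]
  have hβ : β = 1 - α := by linarith
  have h4 : ((q (a + 1) t).re - (q a t).re) * ((q (a + 2) t).re - (q a t).re) +
      ((q (a + 1) t).im - (q a t).im) * ((q (a + 2) t).im - (q a t).im) =
      -(α * β) * (((q (a + 1) t).re - (q (a + 2) t).re) ^ 2 +
        ((q (a + 1) t).im - (q (a + 2) t).im) ^ 2) := by
    rw [h1, h2, hβ]
    ring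
  rw [h4]
  have h5 : 0 < α * β := mul_pos hα hβ'
  nlinarith

theorem psi_pos {q : Fin 3 → ℝ → ℂ} {a b : Fin 3} {t : ℝ} (hne : ∀ a b, a ≠ b → q a t ≠ q b t)
    (hab : a ≠ b) (h : Ecl q b t) : 0 < psi q a t := by
  obtain ⟨α, β, hα, hβ', hs, h1, h2⟩ := ecl_iff h
  unfold psi dt
  simp only [Complex.sub_re, Complex.sub_im]
  have hβ : β = 1 - α := by linarith
  rcases cases3 a b with rfl | rfl | rfl
  · exact absurd rfl hab
  · rw [i11, i12] at h1 h2
    have h3 := nsq_pos (hne (a + 2) a (ne2 a).symm)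
    have h4 : ((q (a + 1) t).re - (q a t).re) * ((q (a + 2) t).re - (q a t).re) +
        ((q (a + 1) t).im - (q a t).im) * ((q (a + 2) t).im - (q a t).im) =
        α * (((q (a + 2) t).re - (q a t).re) ^ 2 + ((q (a + 2) t).im - (q a t).im) ^ 2) := by
      rw [h1, h2, hβ]
      ring
    rw [h4]
    positivity
  · rw [i21, i22] at h1 h2
    have h3 := nsq_pos (hne (a + 1) a (ne1 a).symm)
    have h4 : ((q (a + 1) t).re - (q a t).re) * ((q (a + 2) t).re - (q a t).re) +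
        ((q (a + 1) t).im - (q a t).im) * ((q (a + 2) t).im - (q a t).im) =
        β * (((q (a + 1) t).re - (q a t).re) ^ 2 + ((q (a + 1) t).im - (q a t).im) ^ 2) := by
      have hα' : α = 1 - β := by linarith
      rw [h1, h2, hα']
      ring
    rw [h4]
    positivity

theorem psi_cont {m : Fin 3 → ℝ} {E : ℝ} {q v : Fin 3 → ℝ → ℂ} (h : Sol m E q v) (a : Fin 3) :
    Continuous (psi q a) := by
  have hq : ∀ b, Continuous (q b) := fun b =>
    continuous_iff_continuousAt.2 fun t => (h.dq b t).continuousAt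
  unfold psi dt
  have h1 := hq a
  have h2 := hq (a + 1)
  have h3 := hq (a + 2)
  fun_prop

theorem t_RA : S_RA := by
  intro m E q v h
  refine ⟨fun a t => ecl_chi, ?_⟩
  intro s t a b hst hab hs ht
  have h1 := psi_neg (h.ne s _ _ (ne12 a)) hs
  have h2 := psi_pos (h.ne t) hab ht
  have h3 := intermediate_value_Icc hst (psi_cont h a).continuousOn ⟨h1.le, h2.le⟩
  obtain ⟨x, hx, hx0⟩ := h3
  exact ⟨x, hx, hx0⟩

end Pool.Agent.J4H64.TB
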